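import Pool.Agent.AT10.Stmts1
import Pool.Agent.Helper25_AT10.IDL
import Pool.Agent.Helper31_AT10.GRI
import Pool.Agent.Helper25_AT2.Bru
import Pool.Agent.Helper69_AT10.GRN

/-!
# Squad AT10, row ROS: a primitive idempotent which vanishes on the centraliser is a trace
-/

open scoped BigOperators

set_option autoImplicit false

noncomputable section

namespace Pool.Agent.PP.T10.H62

open Pool.Agent.Helper51_AWC Pool.Agent.Helper79_WRA Pool.Agent.PP Pool.Agent.PP.KF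
open Pool.Agent.PP.K9 Pool.Agent.PP.K9.H97 Pool.Agent.PP.H75 Pool.Agent.PP.T3 Pool.Agent.PP.T2
open Pool.Agent.PP.T5 Pool.Agent.PP.TB
open Pool.Agent.PP.T8 (rs pw fv rd Ip Rv)
open Pool.Agent.PP.T8.H25 (pw_zero pw_succ pw_add)
open Pool.Agent.PP.T10.H25 (Iv iv_iff iv_mul iv_pw pw_one)

section

variable {F G : Type} [Field F] [Group G] [Finite G]

/-- membership in the algebra `i A ^ P i` -/
structure Bm (P : Subgroup G) (i x : G → F) : Prop where
  iv : Iv P x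
  lm : mulF i x = x
  rm : mulF x i = x

/-- invertible elements of `i A ^ P i` -/
def Inb (P : Subgroup G) (i x : G → F) : Prop :=
  ∃ y, Bm P i y ∧ mulF x y = i ∧ mulF y x = i

theorem Bm.mul {P : Subgroup G} {i x y : G → F} (hx : Bm P i x) (hy : Bm P i y) :
    Bm P i (mulF x y) :=
  ⟨iv_mul hx.iv hy.iv, by rw [← mulF_assoc, hx.lm], by rw [mulF_assoc, hy.rm]⟩

theorem Bm.add {P : Subgroup G} {i x y : G → F} (hx : Bm P i x) (hy : Bm P i y) :
    Bm P i (x + y) := by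
  refine ⟨?_, ?_, ?_⟩
  · intro v hv g
    rw [Pi.add_apply, Pi.add_apply, hx.iv v hv g, hy.iv v hv g]
  · rw [PP.H20.mulF_add, hx.lm, hy.lm]
  · rw [PP.H20.add_mulF, hx.rm, hy.rm]

theorem Bm.zero (P : Subgroup G) (i : G → F) : Bm P i 0 :=
  ⟨fun _ _ _ => rfl, PP.H20.mulF_zero _, PP.H20.zero_mulF _⟩

theorem Bm.sum {P : Subgroup G} {i : G → F} {ι : Type} (s : Finset ι) {x : ι → G → F}
    (hx : ∀ k ∈ s, Bm P i (x k)) : Bm P i (∑ k ∈ s, x k) := by
  classical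
  induction s using Finset.induction_on with
  | empty => rw [Finset.sum_empty]; exact Bm.zero P i
  | insert a s ha ih =>
    rw [Finset.sum_insert ha]
    exact (hx a (Finset.mem_insert_self a s)).add
      (ih fun k hk => hx k (Finset.mem_insert_of_mem hk))

/-- an element with a left inverse is not nilpotent -/
theorem not_nil {P : Subgroup G} {i x z : G → F} (hx : Bm P i x) (h0 : i ≠ 0) (hz : mulF z x = i) :
    ∀ n : ℕ, pw x n ≠ 0 := by
  have key : ∀ n : ℕ, mulF (pw z (n + 1)) (pw x (n + 1)) = i := by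
    intro n
    induction n with
    | zero => rw [zero_add, pw_one, pw_one, hz]
    | succ n ih =>
      have h1 : pw z (n + 1 + 1) = mulF (pw z (n + 1)) z := H25.pw_succ' z (n + 1)
      have h2 : mulF i (pw x (n + 1)) = pw x (n + 1) := by
        rw [pw_succ, ← mulF_assoc, hx.lm]
      rw [h1, pw_succ x (n + 1), mulF_assoc, ← mulF_assoc z x, hz, h2, ih]
  intro n hn
  apply h0
  have h1 : pw x (n + 1) = 0 := by
    rw [pw_succ, hn, PP.H20.mulF_zero]
  rw [← key n, h1, PP.H20.mulF_zero]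

theorem inb_of_left {ℓ : ℕ} {P : Subgroup G} {i x z : G → F} (hIDL : IdlStmt) (hF : GoodF ℓ F)
    (hi : Pm P i) (hx : Bm P i x) (hz : mulF z x = i) : Inb P i x := by
  rcases hIDL ℓ F hF G P i hi x hx.iv hx.lm hx.rm with ⟨n, _, hn⟩ | ⟨y, h1, h2, h3, h4, h5⟩
  · exact absurd hn (not_nil hx hi.nz hz n)
  · exact ⟨y, ⟨h1, h2, h3⟩, h4, h5⟩

theorem inb_add {ℓ : ℕ} {P : Subgroup G} {i x y : G → F} (hIDL : IdlStmt) (hF : GoodF ℓ F)
    (hi : Pm P i) (hx : Bm P i x) (hy : Bm P i y) (h : Inb P i (x + y)) :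
    Inb P i x ∨ Inb P i y := by
  obtain ⟨w, hw, -, h2⟩ := h
  have hwx := hw.mul hx
  have hwy := hw.mul hy
  rw [PP.H20.mulF_add] at h2
  rcases hIDL ℓ F hF G P i hi _ hwx.iv hwx.lm hwx.rm with ⟨n, hn0, hn⟩ | ⟨z, -, -, -, -, hz⟩
  · rcases hIDL ℓ F hF G P i hi _ hwy.iv hwy.lm hwy.rm with ⟨m, hm0, hm⟩ | ⟨z, -, -, -, -, hz⟩
    · exfalso
      have hma : ∀ (x : G → F) (n : ℕ), ma (pw x n) = ma x ^ n := T10.H69.ma_pw
      have e1 : IsNilpotent (ma (mulF w x)) := ⟨n, by rw [← hma, hn, ma_zero]⟩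
      have e2 : IsNilpotent (ma (mulF w y)) := ⟨m, by rw [← hma, hm, ma_zero]⟩
      have e3 : mulF w y = i - mulF w x := by rw [← h2]; abel
      have e4 : Commute (ma (mulF w x)) (ma (mulF w y)) := by
        have : mulF (mulF w x) (mulF w y) = mulF (mulF w y) (mulF w x) := by
          rw [e3, PP.H20.mulF_sub, PP.H20.sub_mulF, hwx.rm, hwx.lm]
        change _ * _ = _ * _
        rw [← ma_mul, this, ma_mul]
      have e5 := Commute.isNilpotent_add e4 e1 e2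
      rw [← ma_add, h2] at e5
      obtain ⟨k, hk⟩ := e5
      rw [← hma, ← ma_zero] at hk
      have hib : Bm P i i := ⟨hi.iv, hi.id, hi.id⟩
      exact not_nil hib hi.nz hi.id k (ma_injective hk)
    · right
      rw [← mulF_assoc] at hz
      exact inb_of_left hIDL hF hi hy hz
  · left
    rw [← mulF_assoc] at hz
    exact inb_of_left hIDL hF hi hx hz

theorem inb_sum {ℓ : ℕ} {P : Subgroup G} {i : G → F} (hIDL : IdlStmt) (hF : GoodF ℓ F)
    (hi : Pm P i) {ι : Type} (s : Finset ι) (x : ι → G → F) (hx : ∀ k ∈ s, Bm P i (x k))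
    (h : Inb P i (∑ k ∈ s, x k)) : ∃ k ∈ s, Inb P i (x k) := by
  classical
  induction s using Finset.induction_on with
  | empty =>
    exfalso
    rw [Finset.sum_empty] at h
    obtain ⟨w, -, h1, -⟩ := h
    rw [PP.H20.zero_mulF] at h1
    exact hi.nz h1.symm
  | insert a s ha ih =>
    rw [Finset.sum_insert ha] at h
    rcases inb_add hIDL hF hi (hx a (Finset.mem_insert_self a s))
      (Bm.sum s fun k hk => hx k (Finset.mem_insert_of_mem hk)) h with h1 | h1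
    · exact ⟨a, Finset.mem_insert_self a s, h1⟩
    · obtain ⟨k, hk, h2⟩ := ih (fun k hk => hx k (Finset.mem_insert_of_mem hk)) h1
      exact ⟨k, Finset.mem_insert_of_mem hk, h2⟩

/-- the trace from a subgroup of index `ℓ` is invariant -/
theorem tr_iv {ℓ : ℕ} [Fact ℓ.Prime] {P Q : Subgroup G} (hP : IsPGroup ℓ P)
    (hix : Q.relIndex P = ℓ) {u : G} (hu : u ∈ P) (huQ : u ∉ Q) {a : G → F} (ha : Iv Q a) :
    Iv P (∑ j ∈ Finset.range ℓ, cj (u ^ j) a) := by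
  classical
  have := Fintype.ofFinite (P ⧸ Q.subgroupOf P)
  have hp : ℓ.Prime := Fact.out
  have hcj : ∀ v ∈ Q, cj v a = a := by
    intro v hv
    have := (iv_iff Q a).1 ha v⁻¹ (inv_mem hv)
    rwa [inv_inv] at this
  have hf : ∀ w ∈ P, ∀ v ∈ Q, cj (w * v) a = cj w a := by
    intro w _ v hv
    rw [← cj_cj, hcj v hv]
  have h1 := T10.H31.pow_sum hp hP hix (fun w => cj w a) hf hu huQ
  rw [h1, iv_iff]
  intro v hv
  rw [T2.H25.cj_sum]
  rw [← Equiv.sum_comp (MulAction.toPerm (⟨v⁻¹, inv_mem hv⟩ : P)) (fun x : P ⧸ Q.subgroupOf P =>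
    cj ((x.out : P) : G) a)]
  refine Finset.sum_congr rfl fun x _ => ?_
  rw [cj_cj, MulAction.toPerm_apply]
  have h3 : QuotientGroup.mk ((((⟨v⁻¹, inv_mem hv⟩ : P) • x).out : P)) =
      (QuotientGroup.mk ((⟨v⁻¹, inv_mem hv⟩ : P) * x.out) : P ⧸ Q.subgroupOf P) := by
    rw [QuotientGroup.out_eq']
    have : (⟨v⁻¹, inv_mem hv⟩ : P) • (QuotientGroup.mk x.out : P ⧸ Q.subgroupOf P) =
      QuotientGroup.mk ((⟨v⁻¹, inv_mem hv⟩ : P) * x.out) := rfl
    rw [← this, QuotientGroup.out_eq']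
  have h4 := QuotientGroup.eq.1 h3.symm
  rw [Subgroup.mem_subgroupOf] at h4
  have h5 : (((((⟨v⁻¹, inv_mem hv⟩ : P) • x).out : P)) : G) = v⁻¹ * ((x.out : P) : G) *
      (((((⟨v⁻¹, inv_mem hv⟩ : P) * x.out)⁻¹ *
        (((⟨v⁻¹, inv_mem hv⟩ : P) • x).out : P) : P)) : G) := by
    rw [Subgroup.coe_mul, Subgroup.coe_inv, Subgroup.coe_mul]
    group
  rw [h5, hf _ (mul_mem (inv_mem hv) (x.out).2) _ h4]

end

theorem ros (hRTR : RtrStmt) (hIDL : IdlStmt) : RosStmt := by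
  intro ℓ _ F _ hF G _ _ P hP i hi hbr
  classical
  have hvan : ∀ g ∈ Subgroup.centralizer (P : Set G), i g = 0 := by
    intro g hg
    have := congrFun hbr g
    unfold br at this
    rwa [if_pos hg] at this
  obtain ⟨m, Q, u, a, hQ, hsum⟩ := hRTR ℓ F G P hP i hi.iv hvan
  have hX : ∀ k, Iv P (∑ j ∈ Finset.range ℓ, cj (u k ^ j) (a k)) := fun k =>
    tr_iv hP (hQ k).2.1 (hQ k).2.2.1 (hQ k).2.2.2.1 (hQ k).2.2.2.2
  have hcj : ∀ (x : G → F), Iv P x → ∀ v ∈ P, cj v x = x := by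
    intro x hx v hv
    have := (iv_iff P x).1 hx v⁻¹ (inv_mem hv)
    rwa [inv_inv] at this
  have hBm : ∀ k, Bm P i (mulF i (mulF (∑ j ∈ Finset.range ℓ, cj (u k ^ j) (a k)) i)) := by
    intro k
    refine ⟨iv_mul hi.iv (iv_mul (hX k) hi.iv), ?_, ?_⟩
    · rw [← mulF_assoc, hi.id]
    · rw [mulF_assoc, mulF_assoc, hi.id]
  have hs : ∑ k, mulF i (mulF (∑ j ∈ Finset.range ℓ, cj (u k ^ j) (a k)) i) = i := by
    rw [← T2.H25.mulF_sum, ← T2.H25.sum_mulF, ← hsum, hi.id, hi.id]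
  have hinv : Inb P i (∑ k, mulF i (mulF (∑ j ∈ Finset.range ℓ, cj (u k ^ j) (a k)) i)) := by
    rw [hs]
    exact ⟨i, ⟨hi.iv, hi.id, hi.id⟩, hi.id, hi.id⟩
  obtain ⟨k, -, w, hw, h1, -⟩ := inb_sum hIDL hF hi Finset.univ _ (fun k _ => hBm k) hinv
  refine ⟨Q k, u k, mulF i (mulF (a k) (mulF i w)), (hQ k).1, (hQ k).2.1, (hQ k).2.2.1,
    (hQ k).2.2.2.1, ?_, ?_, ?_, ?_⟩
  · have hle : ∀ {x : G → F}, Iv P x → Iv (Q k) x := fun hx v hv g => hx v ((hQ k).1 hv) g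
    exact iv_mul (hle hi.iv) (iv_mul (hQ k).2.2.2.2 (iv_mul (hle hi.iv) (hle hw.iv)))
  · rw [← mulF_assoc, hi.id]
  · rw [mulF_assoc, mulF_assoc, mulF_assoc, hw.rm]
  · refine Eq.trans ?_ h1
    rw [mulF_assoc i, mulF_assoc (∑ j ∈ Finset.range ℓ, cj (u k ^ j) (a k)),
      T2.H25.sum_mulF, T2.H25.mulF_sum]
    refine Finset.sum_congr rfl fun j _ => ?_
    have hu := pow_mem (hQ k).2.2.1 j
    rw [cj_mulF, cj_mulF, cj_mulF, hcj i hi.iv _ hu, hcj w hw.iv _ hu]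

end Pool.Agent.PP.T10.H62
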